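import Pool.Agent.P8H49.WT.Stm

/-!
# Project WT, package FNN: the Petersson norm is finite
-/

set_option autoImplicit false

open UpperHalfPlane MeasureTheory CongruenceSubgroup
open scoped MatrixGroups

namespace Pool.Agent.P8H65.WT

open Pool.Agent.P8H49.WT

lemma lint_tail : ∫⁻ y in Set.Ioi (1 / 4 : ℝ), ENNReal.ofReal (y ^ (-2 : ℝ)) ≠ ⊤ := by
  have h : IntegrableOn (fun t : ℝ => t ^ (-2 : ℝ)) (Set.Ioi (1 / 4)) :=
    integrableOn_Ioi_rpow_of_lt (by norm_num) (by norm_num)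
  exact h.lintegral_lt_top.ne

lemma vol_fd : volume ModularGroup.fd ≠ ⊤ := by
  rw [UpperHalfPlane.volume_eq_lintegral]
  obtain ⟨S, hS⟩ : ∃ S : Set (ℝ × ℝ), S = Set.Icc (-(1 / 2)) (1 / 2) ×ˢ Set.Ioi (1 / 4) := ⟨_, rfl⟩
  have mS : MeasurableSet S := by rw [hS]; exact measurableSet_Icc.prod measurableSet_Ioi
  have hsub : (UpperHalfPlane.coe '' ModularGroup.fd) ⊆ Complex.measurableEquivRealProd ⁻¹' S := by
    rintro _ ⟨τ, hτ, rfl⟩
    rw [Set.mem_preimage, Complex.measurableEquivRealProd_apply, hS, Set.mem_prod]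
    refine ⟨?_, ?_⟩
    · have h := abs_le.1 hτ.2
      constructor
      · have := h.1
        simpa using this
      · exact h.2
    · have h3 := ModularGroup.three_le_four_mul_im_sq_of_mem_fd hτ
      have h4 := τ.im_pos
      show (1 / 4 : ℝ) < τ.im
      nlinarith
  refine ne_top_of_le_ne_top ?_ (lintegral_mono_set hsub)
  have mF : Measurable (fun p : ℝ × ℝ => (((1 / ‖p.2‖₊) ^ 2 : NNReal) : ENNReal)) := by fun_prop
  have e := Complex.volume_preserving_equiv_real_prod.setLIntegral_comp_preimage mS mF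
  refine ne_of_eq_of_ne e ?_
  rw [hS, Measure.volume_eq_prod, ← Measure.prod_restrict]
  have e2 : ∫⁻ p : ℝ × ℝ, (((1 / ‖p.2‖₊) ^ 2 : NNReal) : ENNReal)
      ∂((volume.restrict (Set.Icc (-(1 / 2)) (1 / 2))).prod (volume.restrict (Set.Ioi (1 / 4)))) =
      ∫⁻ _ in Set.Icc (-(1 / 2) : ℝ) (1 / 2), ∫⁻ y in Set.Ioi (1 / 4 : ℝ),
        (((1 / ‖y‖₊) ^ 2 : NNReal) : ENNReal) := by
    rw [lintegral_prod _ (by fun_prop)]
  rw [e2]
  have e3 : ∫⁻ y in Set.Ioi (1 / 4 : ℝ), (((1 / ‖y‖₊) ^ 2 : NNReal) : ENNReal) =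
      ∫⁻ y in Set.Ioi (1 / 4 : ℝ), ENNReal.ofReal (y ^ (-2 : ℝ)) := by
    refine setLIntegral_congr_fun measurableSet_Ioi (fun y hy => ?_)
    have hy0 : 0 < y := lt_trans (by norm_num) hy
    have h1 : y ^ (-2 : ℝ) = (1 / y) ^ 2 := by
      rw [Real.rpow_neg hy0.le]
      norm_num
    show (((1 / ‖y‖₊) ^ 2 : NNReal) : ENNReal) = ENNReal.ofReal (y ^ (-2 : ℝ))
    rw [h1, ENNReal.ofReal, ENNReal.coe_inj]
    apply NNReal.eq
    rw [Real.coe_toNNReal _ (by positivity)]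
    push_cast
    rw [Real.norm_of_nonneg hy0.le]
  rw [e3, lintegral_const]
  refine ENNReal.mul_ne_top lint_tail ?_
  simp

/-- **FNN.** -/
theorem fnn : S_FNN := by
  intro N χ f a hN hf
  have : NeZero N := ⟨hN.ne'⟩
  obtain ⟨C, hC⟩ := hf.bounded
  have : Fintype (SL(2, ℤ) ⧸ Gamma0 N) := Subgroup.fintypeQuotientOfFiniteIndex
  have hG : ∀ z : ℍ, G f z ≤ C ^ 2 := by
    intro z
    have h1 := hC z
    have e : G f z = (‖f z‖ * z.im ^ (3 / 4 : ℝ)) ^ 2 := by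
      unfold G
      rw [mul_pow, ← Real.rpow_natCast (z.im ^ (3 / 4 : ℝ)) 2, ← Real.rpow_mul z.im_pos.le]
      norm_num
    rw [e]
    have h0 : 0 ≤ ‖f z‖ * z.im ^ (3 / 4 : ℝ) :=
      mul_nonneg (norm_nonneg _) (Real.rpow_nonneg z.im_pos.le _)
    exact pow_le_pow_left₀ h0 h1 2
  unfold nrm
  rw [tsum_fintype]
  refine (ENNReal.sum_lt_top.2 (fun q _ => ?_)).ne
  have h2 : ∫⁻ z in ModularGroup.fd, ENNReal.ofReal (G f (q.out⁻¹ • z)) ≤
      ∫⁻ _ in ModularGroup.fd, ENNReal.ofReal (C ^ 2) :=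
    lintegral_mono (fun z => ENNReal.ofReal_le_ofReal (hG _))
  refine lt_of_le_of_lt h2 ?_
  rw [lintegral_const, Measure.restrict_apply_univ]
  exact ENNReal.mul_lt_top ENNReal.ofReal_lt_top (lt_top_iff_ne_top.2 vol_fd)

end Pool.Agent.P8H65.WT
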