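import Pool.Agent.P8H49.WT.Stm

/-!
# Project WT, packages ZER, AVG
-/

set_option autoImplicit false

open UpperHalfPlane MeasureTheory CongruenceSubgroup
open scoped MatrixGroups

namespace Pool.Agent.P8H65.WT

open Pool.Agent.P8H49.WT

/-- **ZER.** -/
theorem zer : S_INV → S_HOL → S_COF → S_PTW → S_ZER := by
  intro hI hH hC hP N χ f a hN h4 hf h0 n
  have f0 : ∀ z : ℍ, f z = 0 := by
    intro z
    obtain ⟨γ, hγ⟩ := ModularGroup.exists_smul_mem_fd z
    have h := hP N f hN (hH f a hf.expansion) (hI N χ f hN h4 hf.law) z γ hγ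
    rw [h0, mul_zero, nonpos_iff_eq_zero, ENNReal.ofReal_eq_zero] at h
    unfold G at h
    have h1 : 0 < z.im ^ (3 / 2 : ℝ) := Real.rpow_pos_of_pos z.im_pos _
    by_contra hne
    have h2 : 0 < ‖f z‖ ^ 2 := by
      have := norm_pos_iff.2 hne
      positivity
    nlinarith [mul_pos h2 h1]
  have h := hC f a hf.expansion 1 one_pos n
  simp only [f0, zero_mul, intervalIntegral.integral_zero] at h
  rcases mul_eq_zero.1 h.symm with h1 | h1
  · exact h1
  · exact absurd h1 (Complex.exp_ne_zero _)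

/-- **AVG.** -/
theorem avg : S_DUAL → S_HTI → S_AVG := by
  intro hD hT
  refine ⟨Real.exp (4 * Real.pi) * (200 * 100), by positivity, ?_⟩
  intro N χ hN h4 X hX S hS f a hf
  have X0 : (0 : ℝ) < X := by exact_mod_cast hX
  have X1 : (1 : ℝ) ≤ X := by exact_mod_cast hX
  obtain ⟨y, hy⟩ : ∃ y : ℝ, y = 1 / X := ⟨_, rfl⟩
  have y0 : 0 < y := by rw [hy]; positivity
  have y1 : y ≤ 1 := by rw [hy, div_le_one X0]; exact X1
  have h1 := hD N χ hN h4 S f a hf y y0 y1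
  have h2 := hT y y0 y1
  have ey : y ^ (-(3 / 2) : ℝ) = (X : ℝ) ^ (3 / 2 : ℝ) := by
    rw [hy, one_div, Real.inv_rpow X0.le, Real.rpow_neg X0.le, inv_inv]
  have ly : Real.log y = - Real.log X := by rw [hy, one_div, Real.log_inv]
  rw [ey] at h1
  rw [ly] at h2
  have h3 : ∑ n ∈ S, ‖a n n‖ ^ 2 ≤ Real.exp (4 * Real.pi) *
      ∑ n ∈ S, ‖a n n‖ ^ 2 * Real.exp (-(4 * Real.pi * n * y)) := by
    rw [Finset.mul_sum]
    refine Finset.sum_le_sum (fun n hn => ?_)
    have hn2 := (Finset.mem_Icc.1 (hS hn)).2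
    have hn3 : (n : ℝ) * y ≤ 1 := by
      rw [hy, mul_one_div, div_le_one X0]
      exact_mod_cast hn2
    have e1 : Real.exp (4 * Real.pi) * (‖a n n‖ ^ 2 * Real.exp (-(4 * Real.pi * n * y))) =
        ‖a n n‖ ^ 2 * Real.exp (4 * Real.pi + -(4 * Real.pi * n * y)) := by
      rw [Real.exp_add]
      ring
    rw [e1]
    have h4 : 1 ≤ Real.exp (4 * Real.pi + -(4 * Real.pi * n * y)) := by
      apply Real.one_le_exp
      have := Real.pi_pos
      nlinarith
    nlinarith [sq_nonneg ‖a n n‖]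
  have hX32 : 0 ≤ (X : ℝ) ^ (3 / 2 : ℝ) := by positivity
  have hE : 0 < Real.exp (4 * Real.pi) := Real.exp_pos _
  calc ∑ n ∈ S, ‖a n n‖ ^ 2 ≤ Real.exp (4 * Real.pi) *
      ∑ n ∈ S, ‖a n n‖ ^ 2 * Real.exp (-(4 * Real.pi * n * y)) := h3
    _ ≤ Real.exp (4 * Real.pi) * (200 * (X : ℝ) ^ (3 / 2 : ℝ) * ∫ x in (0 : ℝ)..1, U x y) :=
        mul_le_mul_of_nonneg_left h1 hE.le
    _ ≤ Real.exp (4 * Real.pi) * (200 * (X : ℝ) ^ (3 / 2 : ℝ) * (100 * (1 - -Real.log X))) := by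
        refine mul_le_mul_of_nonneg_left ?_ hE.le
        exact mul_le_mul_of_nonneg_left h2 (by positivity)
    _ = _ := by ring

end Pool.Agent.P8H65.WT
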