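import Pool.Agent.P8H49.WT.Stm

/-!
# Project WT, package CNB: counting the exceptional integers
-/

set_option autoImplicit false

open UpperHalfPlane MeasureTheory CongruenceSubgroup
open scoped MatrixGroups

namespace Pool.Agent.P8H65.WT

open Pool.Agent.P8H49.WT

lemma scale {N : ℕ} {χ : DirichletCharacter ℂ N} {f : ℍ → ℂ} {a : ℕ → ℂ} (hf : IsCusp N χ f a)
    (c : ℂ) : IsCusp N χ (fun z => c * f z) (fun n => c * a n) where
  expansion := fun z => by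
    have := (hf.expansion z).mul_left c
    simpa [mul_assoc] using this
  law := fun γ hγ z => by
    show c * f (γ • z) = _
    rw [hf.law γ hγ z]
    ring
  bounded := by
    obtain ⟨C, hC⟩ := hf.bounded
    refine ⟨‖c‖ * C, fun z => ?_⟩
    rw [norm_mul, mul_assoc]
    exact mul_le_mul_of_nonneg_left (hC z) (norm_nonneg _)

lemma nrm_scale (N : ℕ) (f : ℍ → ℂ) (c : ℂ) :
    nrm N (fun z => c * f z) = ENNReal.ofReal (‖c‖ ^ 2) * nrm N f := by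
  unfold nrm
  rw [← ENNReal.tsum_mul_left]
  refine tsum_congr (fun q => ?_)
  rw [← lintegral_const_mul' _ _ ENNReal.ofReal_ne_top]
  refine lintegral_congr (fun z => ?_)
  rw [← ENNReal.ofReal_mul (by positivity)]
  congr 1
  unfold G
  rw [norm_mul]
  ring

/-- normalisation -/
lemma one_form (hF : S_FNN) (hZ : S_ZER) {N : ℕ} {χ : DirichletCharacter ℂ N} {f : ℍ → ℂ}
    {a : ℕ → ℂ} {n : ℕ} {η : ℝ} (hN : 0 < N) (h4 : 4 ∣ N) (hf : IsCusp N χ f a)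
    (hb : √(nrm N f).toReal * (n : ℝ) ^ (1 / 4 + η) < ‖a n‖) :
    ∃ (f' : ℍ → ℂ) (a' : ℕ → ℂ), IsCusp N χ f' a' ∧ nrm N f' ≤ 1 ∧
      (n : ℝ) ^ (1 / 4 + η) ≤ ‖a' n‖ := by
  have h1 := hF N χ f a hN hf
  have h2 : nrm N f ≠ 0 := by
    intro h
    have h3 := hZ N χ f a hN h4 hf h n
    rw [h3, norm_zero] at hb
    have : 0 ≤ √(nrm N f).toReal * (n : ℝ) ^ (1 / 4 + η) :=
      mul_nonneg (Real.sqrt_nonneg _) (Real.rpow_nonneg (Nat.cast_nonneg n) _)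
    linarith
  obtain ⟨t, ht⟩ : ∃ t : ℝ, t = (nrm N f).toReal := ⟨_, rfl⟩
  have t0 : 0 < t := by rw [ht]; exact ENNReal.toReal_pos h2 h1
  have s0 : 0 < √t := Real.sqrt_pos.2 t0
  have et : nrm N f = ENNReal.ofReal t := by rw [ht, ENNReal.ofReal_toReal h1]
  have ec : ‖(((√t)⁻¹ : ℝ) : ℂ)‖ = (√t)⁻¹ := by
    rw [Complex.norm_real, Real.norm_of_nonneg (by positivity)]
  refine ⟨_, _, scale hf (((√t)⁻¹ : ℝ) : ℂ), ?_, ?_⟩
  · rw [nrm_scale, ec, et, ← ENNReal.ofReal_mul (by positivity), inv_pow, Real.sq_sqrt t0.le,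
      inv_mul_cancel₀ t0.ne', ENNReal.ofReal_one]
  · rw [← ht] at hb
    show _ ≤ ‖(((√t)⁻¹ : ℝ) : ℂ) * a n‖
    rw [norm_mul, ec, inv_mul_eq_div, le_div_iff₀ s0, mul_comm]
    exact hb.le

/-- the conclusion of `S_AVG` with the constant `C` -/
def AvgC (C : ℝ) : Prop := ∀ (N : ℕ) (χ : DirichletCharacter ℂ N), 0 < N → 4 ∣ N → ∀ X : ℕ, 1 ≤ X →
  ∀ S ⊆ Finset.Icc 1 X, ∀ (f : ℕ → ℍ → ℂ) (a : ℕ → ℕ → ℂ), (∀ n ∈ S, IsCusp N χ (f n) (a n) ∧ nrm N (f n) ≤ 1) →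
    ∑ n ∈ S, ‖a n n‖ ^ 2 ≤ C * (X : ℝ) ^ (3 / 2 : ℝ) * (1 + Real.log X)

/-- bad at `(N, χ)` -/
def Bad (η : ℝ) (N : ℕ) (χ : DirichletCharacter ℂ N) (n : ℕ) : Prop := ∃ (f : ℍ → ℂ) (a : ℕ → ℂ), IsCusp N χ f a ∧
  √(nrm N f).toReal * (n : ℝ) ^ (1 / 4 + η) < ‖a n‖

lemma block {C : ℝ} (hC : AvgC C) (hF : S_FNN) (hZ : S_ZER) {η : ℝ} (hη : 0 ≤ η) {N : ℕ} (hN : 0 < N)
    (h4 : 4 ∣ N) (χ : DirichletCharacter ℂ N) (j : ℕ) (S : Finset ℕ)
    (hS : ∀ n ∈ S, 2 ^ j ≤ n ∧ n < 2 ^ (j + 1) ∧ Bad η N χ n) :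
    (S.card : ℝ) * ((2 : ℝ) ^ j) ^ (1 / 2 + 2 * η) ≤
      C * ((2 : ℝ) ^ (j + 1)) ^ (3 / 2 : ℝ) * (1 + Real.log ((2 : ℝ) ^ (j + 1))) := by
  have h1 : ∀ n ∈ S, ∃ (f' : ℍ → ℂ) (a' : ℕ → ℂ), IsCusp N χ f' a' ∧ nrm N f' ≤ 1 ∧
      (n : ℝ) ^ (1 / 4 + η) ≤ ‖a' n‖ := by
    intro n hn
    obtain ⟨f, a, hf, hb⟩ := (hS n hn).2.2
    exact one_form hF hZ hN h4 hf hb
  choose! f a hfa using h1
  have hsub : S ⊆ Finset.Icc 1 (2 ^ (j + 1)) := by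
    intro n hn
    rw [Finset.mem_Icc]
    have h := hS n hn
    have : 1 ≤ 2 ^ j := Nat.one_le_two_pow
    exact ⟨this.trans h.1, h.2.1.le⟩
  have h2 := hC N χ hN h4 (2 ^ (j + 1)) Nat.one_le_two_pow S hsub f a
    (fun n hn => ⟨(hfa n hn).1, (hfa n hn).2.1⟩)
  push_cast at h2
  refine le_trans ?_ h2
  rw [← nsmul_eq_mul, ← Finset.sum_const]
  refine Finset.sum_le_sum (fun n hn => ?_)
  have h3 := (hfa n hn).2.2
  have n1 : (2 : ℝ) ^ j ≤ n := by exact_mod_cast (hS n hn).1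
  have n0 : (0 : ℝ) ≤ n := Nat.cast_nonneg n
  calc ((2 : ℝ) ^ j) ^ (1 / 2 + 2 * η) ≤ (n : ℝ) ^ (1 / 2 + 2 * η) :=
        Real.rpow_le_rpow (by positivity) n1 (by positivity)
    _ = ((n : ℝ) ^ (1 / 4 + η)) ^ 2 := by
        rw [← Real.rpow_natCast ((n : ℝ) ^ (1 / 4 + η)) 2, ← Real.rpow_mul n0]
        congr 1
        push_cast
        ring
    _ ≤ ‖a n n‖ ^ 2 := pow_le_pow_left₀ (Real.rpow_nonneg n0 _) h3 2

lemma card_char (N : ℕ) : Nat.card (DirichletCharacter ℂ (N + 1)) ≤ N + 1 := by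
  rw [DirichletCharacter.card_eq_totient_of_hasEnoughRootsOfUnity]
  exact Nat.totient_le _

open scoped Classical in
/-- the exceptional integers of a dyadic block -/
noncomputable def Tj (η δ : ℝ) (j : ℕ) : Finset ℕ :=
  (Finset.Ico (2 ^ j) (2 ^ (j + 1))).filter (fun n => ¬ Good η δ n)

lemma block_all {C : ℝ} (hC0 : 0 < C) (hC : AvgC C) (hF : S_FNN) (hZ : S_ZER) {η δ : ℝ} (hη : 0 ≤ η)
    (hδ : 0 ≤ δ) (j : ℕ) :
    ((Tj η δ j).card : ℝ) * ((2 : ℝ) ^ j) ^ (1 / 2 + 2 * η) ≤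
      (((2 : ℝ) ^ (j + 1)) ^ δ) ^ 2 *
        (C * ((2 : ℝ) ^ (j + 1)) ^ (3 / 2 : ℝ) * (1 + Real.log ((2 : ℝ) ^ (j + 1)))) := by
  classical
  obtain ⟨x, hx⟩ : ∃ x : ℝ, x = (2 : ℝ) ^ (j + 1) := ⟨_, rfl⟩
  have x1 : 1 ≤ x := by rw [hx]; exact one_le_pow₀ (by norm_num)
  have x0 : 0 < x := by linarith
  obtain ⟨K, hK⟩ : ∃ K : ℝ, K = ((2 : ℝ) ^ j) ^ (1 / 2 + 2 * η) := ⟨_, rfl⟩
  obtain ⟨R, hR⟩ : ∃ R : ℝ, R = C * x ^ (3 / 2 : ℝ) * (1 + Real.log x) := ⟨_, rfl⟩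
  have R0 : 0 ≤ R := by
    rw [hR]
    have := Real.log_nonneg x1
    positivity
  have K0 : 0 < K := by rw [hK]; positivity
  rw [← hx, ← hK, ← hR]
  obtain ⟨M, hM⟩ : ∃ M : ℕ, M = ⌊x ^ δ⌋₊ := ⟨_, rfl⟩
  have M1 : (M : ℝ) ≤ x ^ δ := by rw [hM]; exact Nat.floor_le (by positivity)
  have : ∀ N : ℕ, Fintype (DirichletCharacter ℂ (N + 1)) := fun N => Fintype.ofFinite _
  obtain ⟨B, hB⟩ : ∃ B : (N : ℕ) → DirichletCharacter ℂ (N + 1) → Finset ℕ, B = fun N χ =>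
    (Finset.Ico (2 ^ j) (2 ^ (j + 1))).filter (fun n => 4 ∣ N + 1 ∧ Bad η (N + 1) χ n) := ⟨_, rfl⟩
  have hsub : Tj η δ j ⊆ (Finset.range M).biUnion (fun N => Finset.univ.biUnion (fun χ => B N χ)) := by
    intro n hn
    unfold Tj at hn
    rw [Finset.mem_filter] at hn
    obtain ⟨hn1, hn2⟩ := hn
    unfold Good at hn2
    push Not at hn2
    obtain ⟨N, hN, h4, hNn, χ, f, a, hf, hb⟩ := hn2
    obtain ⟨N', rfl⟩ : ∃ N', N = N' + 1 := ⟨N - 1, by omega⟩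
    rw [Finset.mem_biUnion]
    refine ⟨N', ?_, ?_⟩
    · rw [Finset.mem_range, hM]
      have h1 : ((N' + 1 : ℕ) : ℝ) ≤ x ^ δ := by
        refine hNn.trans ?_
        refine Real.rpow_le_rpow (Nat.cast_nonneg n) ?_ hδ
        rw [hx]
        exact_mod_cast (Finset.mem_Ico.1 hn1).2.le
      exact Nat.le_floor h1
    · rw [Finset.mem_biUnion]
      refine ⟨χ, Finset.mem_univ _, ?_⟩
      rw [hB]
      show n ∈ (Finset.Ico (2 ^ j) (2 ^ (j + 1))).filter (fun n => 4 ∣ N' + 1 ∧ Bad η (N' + 1) χ n)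
      rw [Finset.mem_filter]
      exact ⟨hn1, h4, f, a, hf, hb⟩
  have hone : ∀ (N : ℕ) (χ : DirichletCharacter ℂ (N + 1)), ((B N χ).card : ℝ) * K ≤ R := by
    intro N χ
    by_cases h4 : 4 ∣ N + 1
    · rw [hK, hR, hx]
      refine block hC hF hZ hη (Nat.succ_pos N) h4 χ j (B N χ) (fun n hn => ?_)
      rw [hB] at hn
      have hn' : n ∈ (Finset.Ico (2 ^ j) (2 ^ (j + 1))).filter
        (fun n => 4 ∣ N + 1 ∧ Bad η (N + 1) χ n) := hn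
      rw [Finset.mem_filter, Finset.mem_Ico] at hn'
      exact ⟨hn'.1.1, hn'.1.2, hn'.2.2⟩
    · have : B N χ = ∅ := by
        rw [hB]
        exact Finset.filter_false_of_mem (fun n _ h => h4 h.1)
      rw [this, Finset.card_empty, Nat.cast_zero, zero_mul]
      exact R0
  have hcard : ((Tj η δ j).card : ℝ) ≤ ∑ N ∈ Finset.range M, ∑ χ : DirichletCharacter ℂ (N + 1), ((B N χ).card : ℝ) := by
    have h1 := (Finset.card_le_card hsub).trans Finset.card_biUnion_le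
    have h2 : (Tj η δ j).card ≤ ∑ N ∈ Finset.range M, ∑ χ : DirichletCharacter ℂ (N + 1), (B N χ).card :=
      h1.trans (Finset.sum_le_sum (fun N _ => Finset.card_biUnion_le))
    exact_mod_cast h2
  calc ((Tj η δ j).card : ℝ) * K
      ≤ (∑ N ∈ Finset.range M, ∑ χ : DirichletCharacter ℂ (N + 1), ((B N χ).card : ℝ)) * K :=
        mul_le_mul_of_nonneg_right hcard K0.le
    _ = ∑ N ∈ Finset.range M, ∑ χ : DirichletCharacter ℂ (N + 1), ((B N χ).card : ℝ) * K := by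
        rw [Finset.sum_mul]
        refine Finset.sum_congr rfl (fun N _ => ?_)
        rw [Finset.sum_mul]
    _ ≤ ∑ N ∈ Finset.range M, (M : ℝ) * R := by
        refine Finset.sum_le_sum (fun N hN => ?_)
        have h1 : ∑ χ : DirichletCharacter ℂ (N + 1), ((B N χ).card : ℝ) * K ≤
            ∑ _χ : DirichletCharacter ℂ (N + 1), R := Finset.sum_le_sum (fun χ _ => hone N χ)
        refine h1.trans ?_
        rw [Finset.sum_const, nsmul_eq_mul]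
        refine mul_le_mul_of_nonneg_right ?_ R0
        have h2 := card_char N
        rw [Nat.card_eq_fintype_card] at h2
        have h3 := Finset.mem_range.1 hN
        rw [Finset.card_univ]
        exact_mod_cast h2.trans h3
    _ = (M : ℝ) ^ 2 * R := by
        rw [Finset.sum_const, Finset.card_range, nsmul_eq_mul]
        ring
    _ ≤ (x ^ δ) ^ 2 * R :=
        mul_le_mul_of_nonneg_right (pow_le_pow_left₀ (Nat.cast_nonneg M) M1 2) R0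

lemma block_num {C : ℝ} (hC0 : 0 < C) (hC : AvgC C) (hF : S_FNN) (hZ : S_ZER) {η δ : ℝ} (hη : 0 ≤ η)
    (hδ : 0 ≤ δ) {e : ℝ} (he : 0 < e) (j : ℕ) :
    ((Tj η δ j).card : ℝ) ≤ (C * (2 : ℝ) ^ (2 * δ + 3 / 2) * (1 + (2 : ℝ) ^ e / e)) *
      ((2 : ℝ) ^ j) ^ (max (1 - 2 * (η - δ)) 0 + e) := by
  have h := block_all hC0 hC hF hZ hη hδ j
  obtain ⟨t, ht⟩ : ∃ t : ℝ, t = (2 : ℝ) ^ j := ⟨_, rfl⟩
  have t1 : 1 ≤ t := by rw [ht]; exact one_le_pow₀ (by norm_num)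
  have t0 : 0 < t := by linarith
  have e2 : (2 : ℝ) ^ (j + 1) = 2 * t := by rw [ht, pow_succ]; ring
  rw [e2, ← ht] at h
  rw [← ht]
  have hl : 1 + Real.log (2 * t) ≤ (1 + (2 : ℝ) ^ e / e) * t ^ e := by
    have h1 := Real.log_le_rpow_div (x := 2 * t) (by positivity) he
    rw [Real.mul_rpow (by norm_num) t0.le] at h1
    have h2 : 1 ≤ t ^ e := Real.one_le_rpow t1 he.le
    have h3 : (1 + (2 : ℝ) ^ e / e) * t ^ e = t ^ e + 2 ^ e * t ^ e / e := by ring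
    rw [h3]
    linarith
  have e3 : ((2 * t) ^ δ) ^ 2 * (C * (2 * t) ^ (3 / 2 : ℝ) * (1 + Real.log (2 * t))) =
      (C * (2 : ℝ) ^ (2 * δ + 3 / 2) * t ^ (1 - 2 * (η - δ)) * (1 + Real.log (2 * t))) *
        t ^ (1 / 2 + 2 * η) := by
    have h1 : ((2 * t) ^ δ) ^ 2 = (2 : ℝ) ^ (2 * δ) * t ^ (2 * δ) := by
      rw [← Real.rpow_natCast ((2 * t) ^ δ) 2, ← Real.rpow_mul (by positivity),
        Real.mul_rpow (by norm_num) t0.le]
      push_cast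
      rw [mul_comm δ 2]
    have h2 : (2 * t) ^ (3 / 2 : ℝ) = (2 : ℝ) ^ (3 / 2 : ℝ) * t ^ (3 / 2 : ℝ) :=
      Real.mul_rpow (by norm_num) t0.le
    have h3 : (2 : ℝ) ^ (2 * δ + 3 / 2) = (2 : ℝ) ^ (2 * δ) * (2 : ℝ) ^ (3 / 2 : ℝ) :=
      Real.rpow_add (by norm_num) _ _
    have h4 : t ^ (1 - 2 * (η - δ)) * t ^ (1 / 2 + 2 * η) = t ^ (2 * δ) * t ^ (3 / 2 : ℝ) := by
      rw [← Real.rpow_add t0, ← Real.rpow_add t0]
      congr 1
      ring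
    rw [h1, h2, h3]
    linear_combination (-(C * (2 : ℝ) ^ (2 * δ) * (2 : ℝ) ^ (3 / 2 : ℝ) * (1 + Real.log (2 * t)))) * h4
  rw [e3] at h
  have h5 : ((Tj η δ j).card : ℝ) ≤
      C * (2 : ℝ) ^ (2 * δ + 3 / 2) * t ^ (1 - 2 * (η - δ)) * (1 + Real.log (2 * t)) :=
    le_of_mul_le_mul_right h (Real.rpow_pos_of_pos t0 _)
  refine h5.trans ?_
  have h6 : t ^ (1 - 2 * (η - δ)) ≤ t ^ (max (1 - 2 * (η - δ)) 0) :=
    Real.rpow_le_rpow_of_exponent_le t1 (le_max_left _ _)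
  have hlog : 0 ≤ 1 + Real.log (2 * t) := by
    have := Real.log_nonneg (show 1 ≤ 2 * t by linarith)
    linarith
  calc C * (2 : ℝ) ^ (2 * δ + 3 / 2) * t ^ (1 - 2 * (η - δ)) * (1 + Real.log (2 * t))
      ≤ C * (2 : ℝ) ^ (2 * δ + 3 / 2) * t ^ (max (1 - 2 * (η - δ)) 0) * (1 + Real.log (2 * t)) :=
        mul_le_mul_of_nonneg_right (mul_le_mul_of_nonneg_left h6 (by positivity)) hlog
    _ ≤ C * (2 : ℝ) ^ (2 * δ + 3 / 2) * t ^ (max (1 - 2 * (η - δ)) 0) *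
        ((1 + (2 : ℝ) ^ e / e) * t ^ e) := mul_le_mul_of_nonneg_left hl (by positivity)
    _ = _ := by
        rw [Real.rpow_add t0]
        ring

/-- **CNB.** -/
theorem cnb : S_AVG → S_FNN → S_ZER → S_CNB := by
  classical
  intro hA hF hZ η δ hη hδ ε hε
  obtain ⟨C, C0, hC⟩ := hA
  obtain ⟨e, he⟩ : ∃ e : ℝ, e = ε / 2 := ⟨_, rfl⟩
  have e0 : 0 < e := by rw [he]; positivity
  obtain ⟨D, hD⟩ : ∃ D : ℝ, D = C * (2 : ℝ) ^ (2 * δ + 3 / 2) * (1 + (2 : ℝ) ^ e / e) := ⟨_, rfl⟩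
  have D0 : 0 ≤ D := by rw [hD]; positivity
  obtain ⟨E, hE⟩ : ∃ E : ℝ, E = max (1 - 2 * (η - δ)) 0 := ⟨_, rfl⟩
  have E0 : 0 ≤ E := by rw [hE]; exact le_max_right _ _
  refine ⟨(1 + 1 / (e * Real.log 2)) * D, fun X hX => ?_⟩
  rw [← hE]
  have X1 : (1 : ℝ) ≤ X := by exact_mod_cast hX
  have X0 : (0 : ℝ) < X := by linarith
  obtain ⟨J, hJ⟩ : ∃ J : ℕ, J = Nat.log 2 X := ⟨_, rfl⟩
  have hJX : (2 : ℝ) ^ J ≤ X := by
    rw [hJ]
    exact_mod_cast Nat.pow_log_le_self 2 (by omega)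
  have hsub : {n : ℕ | 1 ≤ n ∧ n ≤ X ∧ ¬ Good η δ n} ⊆
      (((Finset.range (J + 1)).biUnion (fun j => Tj η δ j) : Finset ℕ) : Set ℕ) := by
    rintro n ⟨h1, h2, h3⟩
    rw [Finset.mem_coe, Finset.mem_biUnion]
    refine ⟨Nat.log 2 n, ?_, ?_⟩
    · rw [Finset.mem_range, hJ]
      exact Nat.lt_succ_of_le (Nat.log_mono_right h2)
    · unfold Tj
      rw [Finset.mem_filter, Finset.mem_Ico]
      exact ⟨⟨Nat.pow_log_le_self 2 (by omega), Nat.lt_pow_succ_log_self (by norm_num) n⟩, h3⟩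
  have h1 : ({n : ℕ | 1 ≤ n ∧ n ≤ X ∧ ¬ Good η δ n}.ncard : ℝ) ≤
      ∑ j ∈ Finset.range (J + 1), ((Tj η δ j).card : ℝ) := by
    have h2 := Set.ncard_le_ncard hsub (Finset.finite_toSet _)
    rw [Set.ncard_coe_finset] at h2
    exact_mod_cast h2.trans Finset.card_biUnion_le
  have h2 : ∀ j ∈ Finset.range (J + 1), ((Tj η δ j).card : ℝ) ≤ D * (X : ℝ) ^ (E + e) := by
    intro j hj
    have h3 := block_num C0 hC hF hZ hη hδ e0 j
    rw [← hD, ← hE] at h3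
    refine h3.trans (mul_le_mul_of_nonneg_left ?_ D0)
    refine Real.rpow_le_rpow (by positivity) ?_ (by positivity)
    refine le_trans (pow_le_pow_right₀ (by norm_num) ?_) hJX
    have := Finset.mem_range.1 hj
    omega
  have l2 : 0 < Real.log 2 := Real.log_pos (by norm_num)
  have h3 : ((J : ℝ) + 1) ≤ (1 + 1 / (e * Real.log 2)) * (X : ℝ) ^ e := by
    have h4 : (J : ℝ) * Real.log 2 ≤ Real.log X := by
      rw [← Real.log_pow]
      exact Real.log_le_log (by positivity) hJX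
    have h5 := Real.log_le_rpow_div (x := (X : ℝ)) X0.le e0
    have h6 : 1 ≤ (X : ℝ) ^ e := Real.one_le_rpow X1 e0.le
    have h7 : (J : ℝ) ≤ (X : ℝ) ^ e / (e * Real.log 2) := by
      rw [le_div_iff₀ (by positivity)]
      have h8 : (J : ℝ) * Real.log 2 ≤ (X : ℝ) ^ e / e := h4.trans h5
      rw [le_div_iff₀ e0] at h8
      linarith
    have h9 : (1 + 1 / (e * Real.log 2)) * (X : ℝ) ^ e = (X : ℝ) ^ e + (X : ℝ) ^ e / (e * Real.log 2) := by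
      ring
    rw [h9]
    linarith
  calc ({n : ℕ | 1 ≤ n ∧ n ≤ X ∧ ¬ Good η δ n}.ncard : ℝ)
      ≤ ∑ j ∈ Finset.range (J + 1), ((Tj η δ j).card : ℝ) := h1
    _ ≤ ∑ _j ∈ Finset.range (J + 1), D * (X : ℝ) ^ (E + e) := Finset.sum_le_sum h2
    _ = ((J : ℝ) + 1) * (D * (X : ℝ) ^ (E + e)) := by
        rw [Finset.sum_const, Finset.card_range, nsmul_eq_mul]
        push_cast
        ring
    _ ≤ ((1 + 1 / (e * Real.log 2)) * (X : ℝ) ^ e) * (D * (X : ℝ) ^ (E + e)) :=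
        mul_le_mul_of_nonneg_right h3 (by positivity)
    _ = (1 + 1 / (e * Real.log 2)) * D * (X : ℝ) ^ (E + ε) := by
        have h4 : (X : ℝ) ^ (E + ε) = (X : ℝ) ^ e * (X : ℝ) ^ (E + e) := by
          rw [← Real.rpow_add X0]
          congr 1
          rw [he]
          ring
        rw [h4]
        ring

end Pool.Agent.P8H65.WT
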